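import Pool.Agent.R3M.Kit

/-!
# R3M: LCL, LTW, VRC, VRF, VFF, VBR
-/

set_option autoImplicit false

namespace Pool.Agent.R3M.H76

open Pool.Agent.R3M Pool.Agent.R3M.Kit

theorem lcl : LclStmt := by
  intro α _ M I e f e1 hI he he1 hee hf hde hd1 hcon
  have hc : (insert e1 (insert e (I.erase f))).card = I.card + 1 := by
    rw [Finset.card_insert_of_notMem, card_exch he hf]
    intro h
    rcases mem_exch.mp h with h | h
    · exact hee h.symm
    · exact he1 h.2
  obtain ⟨u, hu, huI, hi⟩ := M.aug hI hcon (by omega)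
  rcases Finset.mem_insert.mp hu with rfl | hu
  · exact hd1 hi
  · rcases mem_exch.mp hu with rfl | h
    · exact hde hi
    · exact huI h.2

theorem ltw : LtwStmt := by
  intro α _ M I e f f' e1 hI he he1 hee hf hf' hff hi
  have hX : M.Ind (insert e1 ((I.erase f).erase f')) := by
    refine M.sub hi (Finset.insert_subset_insert _ (Finset.erase_subset_erase _ ?_))
    exact Finset.subset_insert _ _
  have hc : (insert e1 ((I.erase f).erase f')).card < I.card := by
    rw [Finset.card_insert_of_notMem (fun h => he1 (Finset.mem_of_mem_erase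
      (Finset.mem_of_mem_erase h))), Finset.card_erase_of_mem (Finset.mem_erase.mpr
      ⟨Ne.symm hff, hf'⟩), Finset.card_erase_of_mem hf]
    have h2 : 1 < I.card := Finset.one_lt_card.mpr ⟨f, hf, f', hf', hff⟩
    omega
  obtain ⟨u, huI, huX, hu⟩ := M.aug hX hI hc
  by_cases huf : u = f
  · right
    refine M.sub hu (fun v hv => ?_)
    rcases mem_exch.mp hv with rfl | ⟨h1, h2⟩
    · exact Finset.mem_insert_of_mem (Finset.mem_insert_self _ _)
    · by_cases hvf : v = f
      · rw [hvf, ← huf]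
        exact Finset.mem_insert_self _ _
      · exact Finset.mem_insert_of_mem (Finset.mem_insert_of_mem (Finset.mem_erase.mpr
          ⟨h1, Finset.mem_erase.mpr ⟨hvf, h2⟩⟩))
  · have huf' : u = f' := by
      by_contra h
      exact huX (Finset.mem_insert_of_mem (Finset.mem_erase.mpr ⟨h, Finset.mem_erase.mpr
        ⟨huf, huI⟩⟩))
    left
    refine M.sub hu (fun v hv => ?_)
    rcases mem_exch.mp hv with rfl | ⟨h1, h2⟩
    · exact Finset.mem_insert_of_mem (Finset.mem_insert_self _ _)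
    · by_cases hvf : v = f'
      · rw [hvf, ← huf']
        exact Finset.mem_insert_self _ _
      · exact Finset.mem_insert_of_mem (Finset.mem_insert_of_mem (Finset.mem_erase.mpr
          ⟨hvf, Finset.mem_erase.mpr ⟨h1, h2⟩⟩))

section four

variable {α : Type} [DecidableEq α]

/-- the set `I + e + e' - x - x'` -/
theorem mem_J {I : Finset α} {e e' x x' u : α} :
    u ∈ insert e' (insert e ((I.erase x).erase x')) ↔
      u = e' ∨ u = e ∨ (u ≠ x' ∧ u ≠ x ∧ u ∈ I) := by
  simp [Finset.mem_insert, Finset.mem_erase]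

theorem mk4 {M N : Mat α} {n : ℕ} {S I : Finset α} {e e' x x' a b : α} (hn : I.card = n)
    (he : e ∈ S) (heI : e ∉ I) (he' : e' ∈ S) (heI' : e' ∉ I) (hee : e ≠ e')
    (hx : x ∈ I) (hxS : x ∉ S) (hx' : x' ∈ I) (hxS' : x' ∉ S) (hxx : x ≠ x')
    (ha : a = x ∨ a = x') (hb : b = x ∨ b = x')
    (hM : M.Ind (insert e' (insert e ((I.erase x).erase x'))))
    (hN : N.Ind (insert e' (insert e ((I.erase x).erase x')))) :
    Four M N n S I (insert e (I.erase a)) (insert e' (I.erase b))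
      (insert e' (insert e ((I.erase x).erase x'))) := by
  have hex : e ≠ x := fun h => heI (h ▸ hx)
  have hex' : e ≠ x' := fun h => heI (h ▸ hx')
  have he'x : e' ≠ x := fun h => heI' (h ▸ hx)
  have he'x' : e' ≠ x' := fun h => heI' (h ▸ hx')
  -- the other element
  have key : ∀ c, (c = x ∨ c = x') → ∃ c', c' ∈ I ∧ c' ∉ S ∧ c' ≠ c ∧
      (∀ u, u ∈ I → u ≠ c → (u = x' ∨ u = x) → u = c') ∧
      c' ∉ insert e' (insert e ((I.erase x).erase x')) := by
    rintro c (rfl | rfl)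
    · refine ⟨x', hx', hxS', Ne.symm hxx, ?_, ?_⟩
      · rintro u - h1 (h2 | h2)
        · exact h2
        · exact absurd h2 h1
      · rw [mem_J]
        rintro (h | h | h)
        · exact he'x' h.symm
        · exact hex' h.symm
        · exact h.1 rfl
    · refine ⟨x, hx, hxS, hxx, ?_, ?_⟩
      · rintro u - h1 (h2 | h2)
        · exact absurd h2 h1
        · exact h2
      · rw [mem_J]
        rintro (h | h | h)
        · exact he'x h.symm
        · exact hex h.symm
        · exact h.2.1 rfl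
  obtain ⟨a', ha'I, ha'S, ha'a, hua, ha'J⟩ := key a ha
  obtain ⟨b', hb'I, hb'S, hb'b, hub, hb'J⟩ := key b hb
  have near1 : ∀ u ∈ insert e (I.erase a), u ∉ insert e' (insert e ((I.erase x).erase x')) →
      u = a' := by
    intro u hu hn
    rw [mem_J] at hn
    push Not at hn
    rcases mem_exch.mp hu with h | ⟨h1, h2⟩
    · exact absurd h hn.2.1
    · refine hua u h2 h1 ?_
      by_cases h3 : u = x'
      · exact Or.inl h3
      · by_cases h4 : u = x
        · exact Or.inr h4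
        · exact absurd h2 (hn.2.2 h3 h4)
  have near2 : ∀ u ∈ insert e' (insert e ((I.erase x).erase x')), u ∉ insert e (I.erase a) →
      u = e' := by
    intro u hu hn
    rcases mem_J.mp hu with h | h | ⟨h1, h2, h3⟩
    · exact h
    · exact absurd (h ▸ Finset.mem_insert_self _ _) hn
    · exfalso
      apply hn
      rw [mem_exch]
      right
      refine ⟨?_, h3⟩
      rcases ha with rfl | rfl
      · exact h2
      · exact h1
  have near3 : ∀ u ∈ insert e' (insert e ((I.erase x).erase x')), u ∉ insert e' (I.erase b) →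
      u = e := by
    intro u hu hn
    rcases mem_J.mp hu with h | h | ⟨h1, h2, h3⟩
    · exact absurd (h ▸ Finset.mem_insert_self _ _) hn
    · exact h
    · exfalso
      apply hn
      rw [mem_exch]
      right
      refine ⟨?_, h3⟩
      rcases hb with rfl | rfl
      · exact h2
      · exact h1
  have near4 : ∀ u ∈ insert e' (I.erase b), u ∉ insert e' (insert e ((I.erase x).erase x')) →
      u = b' := by
    intro u hu hn
    rw [mem_J] at hn
    push Not at hn
    rcases mem_exch.mp hu with h | ⟨h1, h2⟩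
    · exact absurd h hn.1
    · refine hub u h2 h1 ?_
      by_cases h3 : u = x'
      · exact Or.inl h3
      · by_cases h4 : u = x
        · exact Or.inr h4
        · exact absurd h2 (hn.2.2 h3 h4)
  refine ⟨⟨hM, hN, ?_⟩, near_of_sub a' e' near1 near2, near_of_sub e b' near3 near4, ?_,
    Or.inl ⟨a', Or.inl ⟨?_, ha'J⟩, ha'S⟩, Or.inl ⟨b', Or.inr ⟨?_, hb'J⟩, hb'S⟩⟩
  · have h1 : e ∉ (I.erase x).erase x' := fun h => heI (Finset.mem_of_mem_erase
      (Finset.mem_of_mem_erase h))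
    have h2 : e' ∉ insert e ((I.erase x).erase x') := by
      rw [Finset.mem_insert]
      rintro (h | h)
      · exact hee h.symm
      · exact heI' (Finset.mem_of_mem_erase (Finset.mem_of_mem_erase h))
    rw [Finset.card_insert_of_notMem h2, Finset.card_insert_of_notMem h1,
      Finset.card_erase_of_mem (Finset.mem_erase.mpr ⟨Ne.symm hxx, hx'⟩),
      Finset.card_erase_of_mem hx]
    have h3 : 1 < I.card := Finset.one_lt_card.mpr ⟨x, hx, x', hx', hxx⟩
    omega
  · have h1 : insert e' (insert e ((I.erase x).erase x')) ∩ S = insert e' (insert e (I ∩ S)) := by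
      ext u
      rw [Finset.mem_inter, mem_J, Finset.mem_insert, Finset.mem_insert, Finset.mem_inter]
      constructor
      · rintro ⟨h | h | ⟨_, _, h⟩, hS⟩
        · exact Or.inl h
        · exact Or.inr (Or.inl h)
        · exact Or.inr (Or.inr ⟨h, hS⟩)
      · rintro (rfl | rfl | ⟨h, hS⟩)
        · exact ⟨Or.inl rfl, he'⟩
        · exact ⟨Or.inr (Or.inl rfl), he⟩
        · exact ⟨Or.inr (Or.inr ⟨fun h0 => hxS' (h0 ▸ hS), fun h0 => hxS (h0 ▸ hS), h⟩), hS⟩
    have h2 : e ∉ I ∩ S := fun h => heI (Finset.mem_inter.mp h).1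
    have h3 : e' ∉ insert e (I ∩ S) := by
      rw [Finset.mem_insert]
      rintro (h | h)
      · exact hee h.symm
      · exact heI' (Finset.mem_inter.mp h).1
    rw [h1, Finset.card_insert_of_notMem h3, Finset.card_insert_of_notMem h2]
  · exact mem_exch.mpr (Or.inr ⟨ha'a, ha'I⟩)
  · exact mem_exch.mpr (Or.inr ⟨hb'b, hb'I⟩)

/-- two given elements of `I \ S` as a pair of distinct elements -/
theorem two_of {S I : Finset α} (h2 : 2 ≤ (I \ S).card) {p q : α} (hp : p ∈ I) (hpS : p ∉ S)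
    (hq : q ∈ I) (hqS : q ∉ S) : ∃ x', x' ∈ I ∧ x' ∉ S ∧ p ≠ x' ∧ (q = p ∨ q = x') := by
  by_cases hqp : q = p
  · have h1 : p ∈ I \ S := Finset.mem_sdiff.mpr ⟨hp, hpS⟩
    obtain ⟨x', hx', hne⟩ := Finset.exists_mem_ne (by omega : 1 < (I \ S).card) p
    rw [Finset.mem_sdiff] at hx'
    exact ⟨x', hx'.1, hx'.2, Ne.symm hne, Or.inl hqp⟩
  · exact ⟨q, hq, hqS, fun h => hqp h.symm, Or.inr rfl⟩

/-- a free element: every element outside `S` can go out -/
theorem up_free {M N : Mat α} {S I : Finset α} {e x : α} (he : e ∈ S) (heI : e ∉ I) (hx : x ∈ I)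
    (hxS : x ∉ S) (hM : M.Ind (insert e I)) (hN : N.Ind (insert e I)) : Up M N S I e x :=
  ⟨he, heI, hx, hxS, M.sub hM (Finset.insert_subset_insert _ (Finset.erase_subset _ _)),
    N.sub hN (Finset.insert_subset_insert _ (Finset.erase_subset _ _))⟩

/-- the element which goes out of the circuit in `I + e + e'` -/
theorem out_el (lci : LciStmt) {M : Mat α} {n : ℕ} {S I : Finset α} {e e' : α}
    (hr : M.Rk (n + 1)) (hS : M.Ind S) (hn : I.card = n) (he : e ∈ S) (heI : e ∉ I)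
    (he' : e' ∈ S) (heI' : e' ∉ I) (hee : e ≠ e') (hi : M.Ind (insert e I)) :
    ∃ f ∈ I, f ∉ S ∧ M.Ind (insert e' ((insert e I).erase f)) := by
  have h1 : e' ∉ insert e I := by
    rw [Finset.mem_insert]
    rintro (h | h)
    · exact hee h.symm
    · exact heI' h
  have h2 : ¬ M.Ind (insert e' (insert e I)) := by
    intro h
    have h3 := hr _ h
    rw [Finset.card_insert_of_notMem h1, Finset.card_insert_of_notMem heI] at h3
    omega
  obtain ⟨f, hf, hfS, hf'⟩ := lci α M (insert e I) S e' hi hS he' h1 h2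
  refine ⟨f, ?_, hfS, hf'⟩
  rcases Finset.mem_insert.mp hf with h | h
  · exact absurd (h ▸ he) hfS
  · exact h

end four

theorem vrc (lsp : LspStmt) : VrcStmt := by
  intro α _ M N n S I e1 f1 e2 f2 hS hI h2 hu1 hu2 m1 n1 m2 n2
  obtain ⟨he1, he1I, hf1, hf1S, -, hN1⟩ := id hu1
  obtain ⟨he2, he2I, hf2, hf2S, hM2, -⟩ := id hu2
  have hee : e1 ≠ e2 := fun h => n1 (h ▸ n2)
  have hM := lsp α M I e2 f2 e1 he2I hf2 he1I m2 hM2 m1
  have hN := lsp α N I e1 f1 e2 he1I hf1 he2I n1 hN1 n2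
  obtain ⟨x', hx', hx'S, hne, hq⟩ := two_of h2 hf1 hf1S hf2 hf2S
  refine ⟨f1, f2, _, hu1, hu2, mk4 hI.2.2 he1 he1I he2 he2I hee hf1 hf1S hx' hx'S hne
    (Or.inl rfl) hq (M.sub hM ?_) (N.sub hN ?_)⟩
  · intro u hu
    rw [Finset.mem_insert, mem_exch]
    rcases mem_J.mp hu with h | h | ⟨h3, h4, h5⟩
    · exact Or.inr (Or.inl h)
    · exact Or.inl h
    · refine Or.inr (Or.inr ⟨?_, h5⟩)
      rcases hq with h | h
      · rw [h]
        exact h4
      · rw [h]
        exact h3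
  · intro u hu
    rw [Finset.mem_insert, mem_exch]
    rcases mem_J.mp hu with h | h | ⟨h3, h4, h5⟩
    · exact Or.inl h
    · exact Or.inr (Or.inl h)
    · exact Or.inr (Or.inr ⟨h4, h5⟩)

theorem vrf (lci : LciStmt) (lsp : LspStmt) : VrfStmt := by
  intro α _ M N n S I e1 f1 e3 f3 hS hI h2 hu1 hu3 m1 n1 m3 n3
  obtain ⟨he1, he1I, hf1, hf1S, -, hN1⟩ := id hu1
  obtain ⟨he3, he3I, hf3, hf3S, -, -⟩ := id hu3
  have hee : e1 ≠ e3 := fun h => n1 (h ▸ n3)
  obtain ⟨f', hf', hf'S, hM⟩ := out_el lci hS.rM hS.cS.1 hI.2.2 he3 he3I he1 he1I (Ne.symm hee) m3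
  have hN := lsp α N I e1 f1 e3 he1I hf1 he3I n1 hN1 n3
  obtain ⟨x', hx', hx'S, hne, hq⟩ := two_of h2 hf1 hf1S hf' hf'S
  refine ⟨f1, f1, _, hu1, up_free he3 he3I hf1 hf1S m3 n3, mk4 hI.2.2 he1 he1I he3 he3I hee hf1
    hf1S hx' hx'S hne (Or.inl rfl) (Or.inl rfl) (M.sub hM ?_) (N.sub hN ?_)⟩
  · intro u hu
    rw [Finset.mem_insert, Finset.mem_erase, Finset.mem_insert]
    rcases mem_J.mp hu with h | h | ⟨h3, h4, h5⟩
    · refine Or.inr ⟨?_, Or.inl h⟩
      rw [h]
      exact fun h0 => he3I (h0 ▸ hf')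
    · exact Or.inl h
    · refine Or.inr ⟨?_, Or.inr h5⟩
      rcases hq with h | h
      · rw [h]
        exact h4
      · rw [h]
        exact h3
  · intro u hu
    rw [Finset.mem_insert, mem_exch]
    rcases mem_J.mp hu with h | h | ⟨h3, h4, h5⟩
    · exact Or.inl h
    · exact Or.inr (Or.inl h)
    · exact Or.inr (Or.inr ⟨h4, h5⟩)

theorem vff (lci : LciStmt) : VffStmt := by
  intro α _ M N n S I e3 f3 e4 f4 hS hI h2 hee hu3 hu4 m3 n3 m4 n4
  obtain ⟨he3, he3I, hf3, hf3S, -, -⟩ := id hu3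
  obtain ⟨he4, he4I, hf4, hf4S, -, -⟩ := id hu4
  obtain ⟨p, hp, hpS, hM⟩ := out_el lci hS.rM hS.cS.1 hI.2.2 he3 he3I he4 he4I hee m3
  obtain ⟨q, hq, hqS, hN⟩ := out_el lci hS.rN hS.cS.2.1 hI.2.2 he3 he3I he4 he4I hee n3
  obtain ⟨x', hx', hx'S, hne, hqq⟩ := two_of h2 hp hpS hq hqS
  refine ⟨p, p, _, up_free he3 he3I hp hpS m3 n3, up_free he4 he4I hp hpS m4 n4,
    mk4 hI.2.2 he3 he3I he4 he4I hee hp hpS hx' hx'S hne (Or.inl rfl) (Or.inl rfl)
    (M.sub hM ?_) (N.sub hN ?_)⟩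
  · intro u hu
    rw [Finset.mem_insert, Finset.mem_erase, Finset.mem_insert]
    rcases mem_J.mp hu with h | h | ⟨h3, h4, h5⟩
    · exact Or.inl h
    · refine Or.inr ⟨?_, Or.inl h⟩
      rw [h]
      exact fun h0 => he3I (h0 ▸ hp)
    · exact Or.inr ⟨h4, Or.inr h5⟩
  · intro u hu
    rw [Finset.mem_insert, Finset.mem_erase, Finset.mem_insert]
    rcases mem_J.mp hu with h | h | ⟨h3, h4, h5⟩
    · exact Or.inl h
    · refine Or.inr ⟨?_, Or.inl h⟩
      rw [h]
      exact fun h0 => he3I (h0 ▸ hq)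
    · refine Or.inr ⟨?_, Or.inr h5⟩
      rcases hqq with h | h
      · rw [h]
        exact h4
      · rw [h]
        exact h3

theorem vbr (lsp : LspStmt) (lcl : LclStmt) (lci : LciStmt) (ltw : LtwStmt) : VbrStmt := by
  intro α _ M N n S I e f e1 f1 hS hI h2 hu hu1 me ne m1 n1
  obtain ⟨he, heI, hf, hfS, hMe, hNe⟩ := id hu
  obtain ⟨he1, he1I, hf1, hf1S, hM1, hN1⟩ := id hu1
  have hee : e ≠ e1 := fun h => me (h ▸ m1)
  have hM := lsp α M I e f e1 heI hf he1I me hMe m1
  have hN := lcl α N I e f e1 hI.2.1 heI he1I hee hf ne n1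
  have h3 : e1 ∉ insert e (I.erase f) := by
    rw [mem_exch]
    rintro (h | h)
    · exact hee h.symm
    · exact he1I h.2
  obtain ⟨f', hf', hf'S, hJ⟩ := lci α N (insert e (I.erase f)) S e1 hNe hS.cS.2.1 he1 h3 hN
  obtain ⟨hff, hf'I⟩ : f' ≠ f ∧ f' ∈ I := by
    rcases mem_exch.mp hf' with h | h
    · exact absurd (h ▸ he) hf'S
    · exact h
  have h4 := ltw α N I e f f' e1 hI.2.1 heI he1I hee hf hf'I (Ne.symm hff) hJ
  obtain ⟨x1, hx1, hx1N⟩ : ∃ x1, (x1 = f ∨ x1 = f') ∧ N.Ind (insert e1 (I.erase x1)) := by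
    rcases h4 with h | h
    · exact ⟨f, Or.inl rfl, h⟩
    · exact ⟨f', Or.inr rfl, h⟩
  have hx1I : x1 ∈ I ∧ x1 ∉ S := by
    rcases hx1 with h | h
    · rw [h]
      exact ⟨hf, hfS⟩
    · rw [h]
      exact ⟨hf'I, hf'S⟩
  refine ⟨f, x1, _, hu, ⟨he1, he1I, hx1I.1, hx1I.2, M.sub m1 (Finset.insert_subset_insert _
    (Finset.erase_subset _ _)), hx1N⟩, mk4 hI.2.2 he heI he1 he1I hee hf hfS hf'I hf'S
    (Ne.symm hff) (Or.inl rfl) hx1 (M.sub hM ?_) (N.sub hJ ?_)⟩
  · refine Finset.insert_subset_insert _ (Finset.insert_subset_insert _ ?_)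
    exact Finset.erase_subset _ _
  · intro u hu
    rw [Finset.mem_insert, Finset.mem_erase, mem_exch]
    rcases mem_J.mp hu with h | h | ⟨h5, h6, h7⟩
    · exact Or.inl h
    · refine Or.inr ⟨?_, Or.inl h⟩
      rw [h]
      exact fun h0 => heI (h0 ▸ hf'I)
    · exact Or.inr ⟨h5, Or.inr ⟨h6, h7⟩⟩

end Pool.Agent.R3M.H76
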